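import Pool.Agent.W459.Sq.All

/-!
# Selfridge's problem on square products `n r s`: everything but a thin part of one sequence

Every `n` which is not a square and is not `8` or `392` has the property of the problem, except
possibly `n = 2 b ^ 2`, where `b` is a member of the sequence `0, 2, 14, 84, 492, ...` (that is,
`2 (2 b + 1) ^ 2 - 1` is a square) whose index `j ≥ 17` satisfies explicit congruences.

Proof idea: for `n = a b ^ 2` and `k, x, y ≥ 1` with `k x ^ 2` and `k a y ^ 2` between `n` and
`a (b + 1) ^ 2` these two numbers are `r` and `s`. For a given pair `(x, y)` with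
`|x ^ 2 - a y ^ 2| = e` such a `k` exists as soon as
`e (D ^ 2 + 1) - 2 D (x ^ 2 + a y ^ 2) + 4 x ^ 2 y ^ 2 < 0`, where `D = 2 b + 1`. For consecutive
convergents `(x, y)`, `(X, Y)` of the square root of `a` the corresponding intervals of `D` overlap
in `x Y + X y`, or touch there if both norms are `1` and `-1`. In the latter case
`a = t ^ 2 + 1`, and for `t ≥ 2` the pair `(X - x, Y - y)` covers the gap.
-/

set_option autoImplicit false

namespace Pool.Agent.Results.MP_5c5acc_nt.AllButPell

open Pool.Agent.W459.Sq

/-- Every `n` which is not a square has the property of the problem, except `8`, `392` and possibly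
`2 (b j) ^ 2` with `j ≥ 17` in one of 11 classes modulo 21 for which 25 further linear forms avoid
an explicit interval of residues. -/
theorem result : ∀ n : ℕ, ¬ IsSquare n → ∀ t : ℕ, n < t → IsSquare (n * t) →
    (∃ r s : ℕ, n < r ∧ r < s ∧ s < t ∧ IsSquare (n * r * s)) ∨ n = 8 ∨ n = 392 ∨
      ∃ j : ℕ, 17 ≤ j ∧ n = 2 * (bm j).1 ^ 2 ∧
        j % 21 ∈ ({1, 2, 3, 4, 6, 9, 13, 14, 17, 18, 19} : Finset ℕ) ∧ Hard j := by
  intro n hn t hnt ht
  rcases all.1 n hn t hnt ht with h | h | h | ⟨j, h1, h2, h3⟩
  · exact Or.inl h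
  · exact Or.inr (Or.inl h)
  · exact Or.inr (Or.inr (Or.inl h))
  · exact Or.inr (Or.inr (Or.inr ⟨j, h1, h2, all.2 j h3, h3⟩))

end Pool.Agent.Results.MP_5c5acc_nt.AllButPell
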